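import Mathlib
import Pool.Agent.H410R2.ENIface2
import Pool.Agent.H415R2.ACLocal

/-!
EN2b: sums over all divisors of the absolute local sizes.
-/

set_option autoImplicit false
set_option linter.unusedSectionVars false

open Finset

namespace Pool.Agent.H911R2.EN

open Pool.Agent.H410R2.AC Pool.Agent.H410R2.EN Pool.Agent.H415R2.ACLocal

/-! ### interchange -/

lemma inj_sum {α ι : Type} [DecidableEq ι] [Fintype ι] (P : Finset ℕ) (Ω : Finset α)
    (c : α → ℕ → Finset ι)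
    (hinj : ∀ x ∈ Ω, ∀ y ∈ Ω, (∀ p ∈ P, c x p = c y p) → x = y)
    (F : (P → Finset ι) → ℝ) (hF : ∀ y, 0 ≤ F y) :
    ∑ x ∈ Ω, F (fun p => c x p.1) ≤ ∑ y, F y := by
  classical
  let Φ : α → (P → Finset ι) := fun x p => c x p.1
  have hΦ : ∀ x ∈ Ω, ∀ y ∈ Ω, Φ x = Φ y → x = y := by
    intro x hx y hy hxy
    apply hinj x hx y hy
    intro p hp
    exact congrFun hxy ⟨p, hp⟩
  have e3 : ∑ x ∈ Ω, F (fun p => c x p.1) = ∑ y ∈ Ω.image Φ, F y := by
    rw [Finset.sum_image hΦ]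
  rw [e3]
  exact Finset.sum_le_sum_of_subset_of_nonneg (Finset.subset_univ _) (fun y _ _ => hF y)

lemma sum_prod_eq {ι : Type} [DecidableEq ι] [Fintype ι] (P : Finset ℕ)
    (f : ℕ → Finset ι → ℝ) :
    ∑ y : P → Finset ι, ∏ p : P, f p.1 (y p) = ∏ p ∈ P, ∑ s : Finset ι, f p s := by
  classical
  rw [← Finset.prod_coe_sort P (fun p => ∑ s : Finset ι, f p s), Finset.prod_univ_sum,
    Fintype.piFinset_univ]

/-! ### local functions -/

section Local

variable {ι : Type} [DecidableEq ι]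

/-- product of the local factors of a set of copies -/
noncomputable def Hc (ρ : ℕ → ℕ → ℕ) (loc : ι → Option ℕ) (p : ℕ) (s : Finset ι) (x : ℕ) : ℝ :=
  ∏ i ∈ s, psi ρ p (loc i) x

/-- weight of a set of copies -/
noncomputable def ws (p : ℕ) (s : Finset ι) : ℝ := (1 / ((p : ℝ) - 1)) ^ s.card

omit [DecidableEq ι] in
lemma ws_nonneg {p : ℕ} (hp : 2 ≤ p) (s : Finset ι) : 0 ≤ ws p s := by
  have hp' : (2 : ℝ) ≤ p := by exact_mod_cast hp
  unfold ws
  have : (0 : ℝ) < (p : ℝ) - 1 := by linarith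
  positivity

omit [DecidableEq ι] in
lemma ws_le {p : ℕ} (hp : 2 ≤ p) (s : Finset ι) (hs : s.Nonempty) : ws p s ≤ 1 / ((p : ℝ) - 1) := by
  have hp' : (2 : ℝ) ≤ p := by exact_mod_cast hp
  have h0 : (0 : ℝ) < (p : ℝ) - 1 := by linarith
  have h1 : (1 : ℝ) / ((p : ℝ) - 1) ≤ 1 := by
    rw [div_le_one h0]; linarith
  unfold ws
  calc (1 / ((p : ℝ) - 1)) ^ s.card ≤ (1 / ((p : ℝ) - 1)) ^ 1 :=
        pow_le_pow_of_le_one (by positivity) h1 (Finset.card_pos.2 hs)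
    _ = _ := pow_one _

omit [DecidableEq ι] in
lemma Hc_empty (ρ : ℕ → ℕ → ℕ) (loc : ι → Option ℕ) (p : ℕ) (x : ℕ) : Hc ρ loc p ∅ x = 1 := by
  unfold Hc
  rw [Finset.prod_empty]

omit [DecidableEq ι] in
lemma ws_empty (p : ℕ) : ws p (∅ : Finset ι) = 1 := by
  unfold ws
  rw [Finset.card_empty, pow_zero]

lemma psi_abs (ρ : ℕ → ℕ → ℕ) {p : ℕ} (hp : 2 ≤ p) (o : Option ℕ) (x : ℕ) :
    |psi ρ p o x| ≤ (p : ℝ) - 1 := by
  have hp' : (2 : ℝ) ≤ p := by exact_mod_cast hp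
  unfold psi
  cases o with
  | none => simp; linarith
  | some a =>
    simp only
    split_ifs
    · rw [abs_sub_comm, abs_of_pos (by linarith)]
    · rw [abs_one]; linarith

omit [DecidableEq ι] in
lemma ws_Hc (ρ : ℕ → ℕ → ℕ) (loc : ι → Option ℕ) {p : ℕ} (hp : 2 ≤ p) (s : Finset ι) (x : ℕ) :
    ws p s * |Hc ρ loc p s x - 1| ≤ 2 := by
  have hp' : (2 : ℝ) ≤ p := by exact_mod_cast hp
  have h0 : (0 : ℝ) < (p : ℝ) - 1 := by linarith
  have h1 : |Hc ρ loc p s x| ≤ ((p : ℝ) - 1) ^ s.card := by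
    unfold Hc
    rw [Finset.abs_prod, ← Finset.prod_const]
    exact Finset.prod_le_prod (fun i _ => abs_nonneg _) (fun i _ => psi_abs ρ hp (loc i) x)
  have h2 : (1 : ℝ) ≤ ((p : ℝ) - 1) ^ s.card := one_le_pow₀ (by linarith)
  have h3 : |Hc ρ loc p s x - 1| ≤ 2 * ((p : ℝ) - 1) ^ s.card := by
    calc |Hc ρ loc p s x - 1| ≤ |Hc ρ loc p s x| + |(1 : ℝ)| := abs_sub _ _
      _ ≤ 2 * ((p : ℝ) - 1) ^ s.card := by rw [abs_one]; linarith
  calc ws p s * |Hc ρ loc p s x - 1| ≤ ws p s * (2 * ((p : ℝ) - 1) ^ s.card) := by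
        have := ws_nonneg hp s
        gcongr
    _ = 2 := by
        unfold ws
        rw [one_div, inv_pow]
        field_simp

end Local

/-! ### bounds at one prime -/

section OnePrime

variable {ι : Type} [DecidableEq ι] [Fintype ι]

lemma card_le {n : ℕ} (hι : Fintype.card ι ≤ 2 * n) :
    ((Fintype.card (Finset ι) : ℕ) : ℝ) ≤ 4 ^ n := by
  have h1 : Fintype.card (Finset ι) ≤ 4 ^ n := by
    calc Fintype.card (Finset ι) = 2 ^ Fintype.card ι := Fintype.card_finset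
      _ ≤ 2 ^ (2 * n) := Nat.pow_le_pow_right (by norm_num) hι
      _ = 4 ^ n := by rw [pow_mul]; norm_num
  exact_mod_cast h1

/-- a sum over all sets with the empty set separated -/
lemma sum_bound {n : ℕ} (hι : Fintype.card ι ≤ 2 * n) (f : Finset ι → ℝ) (B : ℝ) (hB : 0 ≤ B)
    (hf : ∀ s : Finset ι, s.Nonempty → f s ≤ B) : ∑ s : Finset ι, f s ≤ f ∅ + 4 ^ n * B := by
  classical
  rw [← Finset.add_sum_erase Finset.univ f (Finset.mem_univ (∅ : Finset ι))]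
  have h1 : ∑ s ∈ (Finset.univ : Finset (Finset ι)).erase ∅, f s ≤ 4 ^ n * B := by
    calc ∑ s ∈ (Finset.univ : Finset (Finset ι)).erase ∅, f s
        ≤ ∑ s ∈ (Finset.univ : Finset (Finset ι)).erase ∅, B := by
          apply Finset.sum_le_sum
          intro s hs
          apply hf
          rw [Finset.nonempty_iff_ne_empty]
          exact Finset.ne_of_mem_erase hs
      _ = (((Finset.univ : Finset (Finset ι)).erase ∅).card : ℝ) * B := by
          rw [Finset.sum_const, nsmul_eq_mul]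
      _ ≤ 4 ^ n * B := by
          have h2 : (((Finset.univ : Finset (Finset ι)).erase ∅).card : ℝ) ≤
              (Fintype.card (Finset ι) : ℝ) := by
            exact_mod_cast Finset.card_le_univ _
          have h3 := card_le (ι := ι) hι
          gcongr
          linarith
  linarith

lemma aL_nonneg (Cl : Finset ℕ) (h : ℕ → ℝ) {p : ℕ} (hp : 2 ≤ p) : 0 ≤ aL Cl h p := by
  have hp' : (2 : ℝ) ≤ p := by exact_mod_cast hp
  have h0 : (0 : ℝ) < (p : ℝ) - 1 := by linarith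
  unfold aL
  positivity

lemma dL_nonneg (Cl : Finset ℕ) (h : ℕ → ℝ) (e : ℕ) {p : ℕ} (hp : 2 ≤ p) : 0 ≤ dL Cl h e p := by
  have hp' : (2 : ℝ) ≤ p := by exact_mod_cast hp
  have h0 : (0 : ℝ) < (p : ℝ) - 1 := by linarith
  unfold dL
  apply Finset.sum_nonneg
  intro c _
  apply mul_nonneg (abs_nonneg _)
  split_ifs <;> positivity

lemma sL_nonneg (Cl : Finset ℕ) (h : ℕ → ℝ) : 0 ≤ sL Cl h := by
  unfold sL
  exact Finset.sum_nonneg (fun c _ => abs_nonneg _)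

lemma aL_one (Cl : Finset ℕ) (p : ℕ) : aL Cl (fun _ => 1) p = 0 := by
  unfold aL; simp

lemma dL_one (Cl : Finset ℕ) (e p : ℕ) : dL Cl (fun _ => 1) e p = 0 := by
  unfold dL; simp

lemma sL_one (Cl : Finset ℕ) : sL Cl (fun _ => 1) = 0 := by
  unfold sL; simp

omit [DecidableEq ι] [Fintype ι] in
lemma ws_sL {n : ℕ} (ρ : ℕ → ℕ → ℕ) (loc : ι → Option ℕ) {p : ℕ} (hp : 2 ≤ p) (s : Finset ι)
    (Cl : Finset ℕ) (hCl : (Cl.card : ℝ) ≤ 2 * n) :
    ws p s * sL Cl (Hc ρ loc p s) ≤ 4 * n := by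
  unfold sL
  rw [Finset.mul_sum]
  calc ∑ c ∈ Cl, ws p s * |Hc ρ loc p s c - 1| ≤ ∑ c ∈ Cl, (2 : ℝ) :=
        Finset.sum_le_sum (fun c _ => ws_Hc ρ loc hp s c)
    _ = Cl.card * 2 := by rw [Finset.sum_const, nsmul_eq_mul]
    _ ≤ 4 * n := by linarith

omit [DecidableEq ι] [Fintype ι] in
lemma ws_aL {n : ℕ} (ρ : ℕ → ℕ → ℕ) (loc : ι → Option ℕ) {p : ℕ} (hp : 2 ≤ p) (s : Finset ι)
    (Cl : Finset ℕ) (hCl : (Cl.card : ℝ) ≤ 2 * n) :
    ws p s * aL Cl (Hc ρ loc p s) p ≤ 4 * n * (1 / ((p : ℝ) - 1)) := by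
  have hp' : (2 : ℝ) ≤ p := by exact_mod_cast hp
  have h0 : (0 : ℝ) < (p : ℝ) - 1 := by linarith
  have h1 := ws_sL ρ loc hp s Cl hCl
  have h2 : aL Cl (Hc ρ loc p s) p = sL Cl (Hc ρ loc p s) * (1 / ((p : ℝ) - 1)) := by
    unfold aL sL
    rw [Finset.sum_mul]
    apply Finset.sum_congr rfl
    intro c _
    ring
  rw [h2, ← mul_assoc]
  gcongr

omit [DecidableEq ι] [Fintype ι] in
lemma ws_dL {n : ℕ} (ρ : ℕ → ℕ → ℕ) (loc : ι → Option ℕ) {p : ℕ} (hp : 2 ≤ p) (s : Finset ι)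
    (Cl : Finset ℕ) (hCl : (Cl.card : ℝ) ≤ 2 * n) (e : ℕ) :
    ws p s * dL Cl (Hc ρ loc p s) e p ≤
      (4 * n + 2) * (1 / ((p : ℝ) - 1) ^ 2 + (if e ∈ Cl then 1 / ((p : ℝ) - 1) else 0)) := by
  have hp' : (2 : ℝ) ≤ p := by exact_mod_cast hp
  have h0 : (0 : ℝ) < (p : ℝ) - 1 := by linarith
  unfold dL
  rw [Finset.mul_sum]
  calc ∑ c ∈ Cl, ws p s * (|Hc ρ loc p s c - 1| *
          (if c = e then 1 / ((p : ℝ) - 1) else 1 / ((p : ℝ) - 1) ^ 2))
      ≤ ∑ c ∈ Cl, (2 * (1 / ((p : ℝ) - 1) ^ 2) + (if c = e then 2 * (1 / ((p : ℝ) - 1)) else 0)) := by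
        apply Finset.sum_le_sum
        intro c _
        have h1 := ws_Hc ρ loc hp s c
        have h2 : (0 : ℝ) ≤ 1 / ((p : ℝ) - 1) ^ 2 := by positivity
        have h3 : (0 : ℝ) ≤ 1 / ((p : ℝ) - 1) := by positivity
        rw [← mul_assoc]
        split_ifs
        · calc ws p s * |Hc ρ loc p s c - 1| * (1 / ((p : ℝ) - 1)) ≤ 2 * (1 / ((p : ℝ) - 1)) := by
                gcongr
            _ ≤ _ := by linarith
        · rw [add_zero]
          gcongr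
    _ = Cl.card * (2 * (1 / ((p : ℝ) - 1) ^ 2)) + (if e ∈ Cl then 2 * (1 / ((p : ℝ) - 1)) else 0) := by
        rw [Finset.sum_add_distrib, Finset.sum_const, nsmul_eq_mul, Finset.sum_ite_eq' Cl e]
    _ ≤ (4 * n + 2) * (1 / ((p : ℝ) - 1) ^ 2) +
          (4 * n + 2) * (if e ∈ Cl then 1 / ((p : ℝ) - 1) else 0) := by
        have h2 : (0 : ℝ) ≤ 1 / ((p : ℝ) - 1) ^ 2 := by positivity
        have h3 : (0 : ℝ) ≤ 1 / ((p : ℝ) - 1) := by positivity
        have hn : (0 : ℝ) ≤ n := by positivity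
        apply add_le_add
        · calc (Cl.card : ℝ) * (2 * (1 / ((p : ℝ) - 1) ^ 2)) ≤
                (2 * n) * (2 * (1 / ((p : ℝ) - 1) ^ 2)) := by gcongr
            _ = 4 * n * (1 / ((p : ℝ) - 1) ^ 2) := by ring
            _ ≤ (4 * n + 2) * (1 / ((p : ℝ) - 1) ^ 2) := by
                gcongr
                linarith
        · split_ifs
          · gcongr
            linarith
          · simp
    _ = _ := by ring

end OnePrime

/-! ### the pair of configurations -/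

section Pair

variable {T : Type} [Fintype T] [DecidableEq T]

omit [DecidableEq T] in
lemma hh_eq (ρ : ℕ → ℕ → ℕ) (σ σ' : T → Option ℕ) (x : (T → Finset ℕ) × (T → Finset ℕ)) (p : ℕ) :
    hh ρ σ σ' x.1 x.2 p = Hc ρ (lc σ σ') p (cc x p) := by
  funext c
  unfold hh Hc cc
  rw [Finset.prod_filter, Finset.prod_filter, Finset.prod_filter, Fintype.prod_sum_type]
  rfl

lemma card_pos_le (σ : T → Option ℕ) : (pos σ).card ≤ Fintype.card T := by
  classical
  have h1 : pos σ ⊆ Finset.univ.image (fun τ => (σ τ).getD 0) := by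
    intro a ha
    rw [mem_pos] at ha
    obtain ⟨τ, hτ⟩ := ha
    rw [Finset.mem_image]
    exact ⟨τ, Finset.mem_univ _, by rw [hτ]; rfl⟩
  calc (pos σ).card ≤ _ := Finset.card_le_card h1
    _ ≤ (Finset.univ : Finset T).card := Finset.card_image_le
    _ = Fintype.card T := Finset.card_univ

lemma card_CL {n : ℕ} (hn : Fintype.card T ≤ n) (ρ : ℕ → ℕ → ℕ) (σ σ' : T → Option ℕ) (p : ℕ) :
    ((CL ρ σ σ' p).card : ℝ) ≤ 2 * n := by
  have h1 : (CL ρ σ σ' p).card ≤ 2 * n := by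
    unfold CL
    calc ((pos σ ∪ pos σ').image (ρ p)).card ≤ (pos σ ∪ pos σ').card := Finset.card_image_le
      _ ≤ (pos σ).card + (pos σ').card := Finset.card_union_le _ _
      _ ≤ 2 * n := by
          have := card_pos_le σ
          have := card_pos_le σ'
          omega
  exact_mod_cast h1

lemma mem_QQ (x : (T → Finset ℕ) × (T → Finset ℕ)) (p : ℕ) :
    p ∈ QQ x.1 x.2 ↔ cc x p ≠ ∅ := by
  unfold QQ
  rw [Finset.mem_union, Finset.mem_biUnion, Finset.mem_biUnion, ← Finset.nonempty_iff_ne_empty]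
  constructor
  · rintro (⟨τ, _, h⟩ | ⟨τ, _, h⟩)
    · exact ⟨Sum.inl τ, mem_cc_inl.2 h⟩
    · exact ⟨Sum.inr τ, mem_cc_inr.2 h⟩
  · rintro ⟨i, hi⟩
    cases i with
    | inl τ => exact Or.inl ⟨τ, Finset.mem_univ _, mem_cc_inl.1 hi⟩
    | inr τ => exact Or.inr ⟨τ, Finset.mem_univ _, mem_cc_inr.1 hi⟩

lemma wt_eq (P : Finset ℕ) (x : (T → Finset ℕ) × (T → Finset ℕ)) (h1 : ∀ τ, x.1 τ ⊆ P)
    (h2 : ∀ τ, x.2 τ ⊆ P) :
    (∏ τ, wt (x.1 τ)) * (∏ τ, wt (x.2 τ)) = ∏ p ∈ P, ws p (cc x p) := by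
  have e1 : (∏ τ, wt (x.1 τ)) * (∏ τ, wt (x.2 τ)) = ∏ i : T ⊕ T, wt (Sum.elim x.1 x.2 i) := by
    rw [Fintype.prod_sum_type]
    rfl
  rw [e1, prod_wt P (Sum.elim x.1 x.2) (by
    intro i
    cases i with
    | inl τ => exact h1 τ
    | inr τ => exact h2 τ)]
  rfl

lemma QQ_sub (P : Finset ℕ) (x : (T → Finset ℕ) × (T → Finset ℕ)) (h1 : ∀ τ, x.1 τ ⊆ P)
    (h2 : ∀ τ, x.2 τ ⊆ P) : QQ x.1 x.2 ⊆ P := by
  unfold QQ
  intro p hp
  rw [Finset.mem_union, Finset.mem_biUnion, Finset.mem_biUnion] at hp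
  rcases hp with ⟨τ, _, h⟩ | ⟨τ, _, h⟩
  · exact h1 τ h
  · exact h2 τ h

lemma prod_QQ (P : Finset ℕ) (x : (T → Finset ℕ) × (T → Finset ℕ)) (h1 : ∀ τ, x.1 τ ⊆ P)
    (h2 : ∀ τ, x.2 τ ⊆ P) (g : ℕ → Finset (T ⊕ T) → ℝ) (hg : ∀ p, g p ∅ = 1) :
    ∏ p ∈ QQ x.1 x.2, g p (cc x p) = ∏ p ∈ P, g p (cc x p) := by
  apply Finset.prod_subset (QQ_sub P x h1 h2)
  intro p _ hp
  rw [mem_QQ, not_not] at hp
  rw [hp, hg]

lemma cc_inj (P : Finset ℕ) (S S' : T → Finset (Finset ℕ)) (hS : ∀ τ, ∀ R ∈ S τ, R ⊆ P)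
    (hS' : ∀ τ, ∀ R ∈ S' τ, R ⊆ P) : ∀ x ∈ Fintype.piFinset S ×ˢ Fintype.piFinset S',
    ∀ y ∈ Fintype.piFinset S ×ˢ Fintype.piFinset S', (∀ p ∈ P, cc x p = cc y p) → x = y := by
  intro x hx y hy h
  rw [Finset.mem_product, Fintype.mem_piFinset, Fintype.mem_piFinset] at hx hy
  apply Prod.ext
  · funext τ
    ext p
    constructor
    · intro hp
      have hpP : p ∈ P := hS τ _ (hx.1 τ) hp
      rw [← mem_cc_inl, ← h p hpP, mem_cc_inl]
      exact hp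
    · intro hp
      have hpP : p ∈ P := hS τ _ (hy.1 τ) hp
      rw [← mem_cc_inl, h p hpP, mem_cc_inl]
      exact hp
  · funext τ
    ext p
    constructor
    · intro hp
      have hpP : p ∈ P := hS' τ _ (hx.2 τ) hp
      rw [← mem_cc_inr, ← h p hpP, mem_cc_inr]
      exact hp
    · intro hp
      have hpP : p ∈ P := hS' τ _ (hy.2 τ) hp
      rw [← mem_cc_inr, h p hpP, mem_cc_inr]
      exact hp

open Classical in
lemma dl_eq (e : ℕ → ℕ) (ρ : ℕ → ℕ → ℕ) (P : Finset ℕ) (σ σ' : T → Option ℕ) (hP : ∀ p ∈ P, p.Prime) :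
    ∑ p ∈ P, (1 / ((p : ℝ) - 1) ^ 2 + (if e p ∈ CL ρ σ σ' p then 1 / ((p : ℝ) - 1) else 0)) ≤
      dl e ρ P (pos σ ∪ pos σ') := by
  unfold dl
  rw [Finset.sum_add_distrib, ← Finset.sum_filter]
  refine add_le_add le_rfl ?_
  apply Finset.sum_le_sum_of_subset_of_nonneg
  · intro p hp
    rw [Finset.mem_filter] at hp ⊢
    refine ⟨hp.1, Or.inr ?_⟩
    have h := hp.2
    unfold CL at h
    rw [Finset.mem_image] at h
    exact h
  · intro p hp _
    have h2 := (hP p (Finset.mem_filter.1 hp).1).two_le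
    have hp' : (2 : ℝ) ≤ p := by exact_mod_cast h2
    have h0 : (0 : ℝ) < (p : ℝ) - 1 := by linarith
    positivity

lemma sum_ws {n : ℕ} (hn : Fintype.card T ≤ n) {p : ℕ} (hp : 2 ≤ p) :
    ∑ s : Finset (T ⊕ T), ws p s ≤ 1 + 4 ^ n * (1 / ((p : ℝ) - 1)) := by
  have hp' : (2 : ℝ) ≤ p := by exact_mod_cast hp
  have h0 : (0 : ℝ) < (p : ℝ) - 1 := by linarith
  have h := sum_bound (ι := T ⊕ T) (n := n) (by rw [Fintype.card_sum]; omega) (fun s => ws p s)
    (1 / ((p : ℝ) - 1)) (by positivity) (fun s hs => ws_le hp s hs)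
  simp only [ws_empty] at h
  exact h

lemma sum_main {n : ℕ} (hn : Fintype.card T ≤ n) (ρ : ℕ → ℕ → ℕ) (σ σ' : T → Option ℕ) {p : ℕ}
    (hp : 2 ≤ p) :
    ∑ s : Finset (T ⊕ T), ws p s * (1 + aL (CL ρ σ σ' p) (Hc ρ (lc σ σ') p s) p) ≤
      1 + (4 ^ n * (4 * n + 2)) * (1 / ((p : ℝ) - 1)) := by
  have hp' : (2 : ℝ) ≤ p := by exact_mod_cast hp
  have h0 : (0 : ℝ) < (p : ℝ) - 1 := by linarith
  have h := sum_bound (ι := T ⊕ T) (n := n) (by rw [Fintype.card_sum]; omega)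
    (fun s => ws p s * (1 + aL (CL ρ σ σ' p) (Hc ρ (lc σ σ') p s) p))
    ((4 * n + 2) * (1 / ((p : ℝ) - 1))) (by positivity) (fun s hs => by
      have h1 := ws_le hp s hs
      have h2 := ws_aL (n := n) ρ (lc σ σ') hp s (CL ρ σ σ' p) (card_CL hn ρ σ σ' p)
      have h3 : (0 : ℝ) ≤ 1 / ((p : ℝ) - 1) := by positivity
      rw [mul_add, mul_one]
      linarith)
  have h4 : ws p (∅ : Finset (T ⊕ T)) *
      (1 + aL (CL ρ σ σ' p) (Hc ρ (lc σ σ') p ∅) p) = 1 := by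
    have : Hc ρ (lc σ σ') p ∅ = fun _ => 1 := funext (fun x => Hc_empty ρ _ p x)
    rw [ws_empty, this, aL_one]
    ring
  rw [h4] at h
  linarith

lemma one_le_main (ρ : ℕ → ℕ → ℕ) (σ σ' : T → Option ℕ) {p : ℕ} (hp : 2 ≤ p) :
    1 ≤ ∑ s : Finset (T ⊕ T), ws p s * (1 + aL (CL ρ σ σ' p) (Hc ρ (lc σ σ') p s) p) := by
  have h4 : ws p (∅ : Finset (T ⊕ T)) *
      (1 + aL (CL ρ σ σ' p) (Hc ρ (lc σ σ') p ∅) p) = 1 := by
    have : Hc ρ (lc σ σ') p ∅ = fun _ => 1 := funext (fun x => Hc_empty ρ _ p x)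
    rw [ws_empty, this, aL_one]
    ring
  calc (1 : ℝ) = ws p (∅ : Finset (T ⊕ T)) *
      (1 + aL (CL ρ σ σ' p) (Hc ρ (lc σ σ') p ∅) p) := h4.symm
    _ ≤ _ := Finset.single_le_sum
      (f := fun s => ws p s * (1 + aL (CL ρ σ σ' p) (Hc ρ (lc σ σ') p s) p))
      (fun s _ => mul_nonneg (ws_nonneg hp s) (by
        have := aL_nonneg (CL ρ σ σ' p) (Hc ρ (lc σ σ') p s) hp
        linarith)) (Finset.mem_univ _)

lemma sum_dev {n : ℕ} (hn : Fintype.card T ≤ n) (ρ : ℕ → ℕ → ℕ) (σ σ' : T → Option ℕ) (e : ℕ) {p : ℕ}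
    (hp : 2 ≤ p) :
    ∑ s : Finset (T ⊕ T), ws p s * dL (CL ρ σ σ' p) (Hc ρ (lc σ σ') p s) e p ≤
      (4 ^ n * (4 * n + 2)) *
        (1 / ((p : ℝ) - 1) ^ 2 + (if e ∈ CL ρ σ σ' p then 1 / ((p : ℝ) - 1) else 0)) := by
  have hp' : (2 : ℝ) ≤ p := by exact_mod_cast hp
  have h0 : (0 : ℝ) < (p : ℝ) - 1 := by linarith
  have h5 : (0 : ℝ) ≤ (if e ∈ CL ρ σ σ' p then 1 / ((p : ℝ) - 1) else 0) := by
    split_ifs <;> positivity
  have h := sum_bound (ι := T ⊕ T) (n := n) (by rw [Fintype.card_sum]; omega)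
    (fun s => ws p s * dL (CL ρ σ σ' p) (Hc ρ (lc σ σ') p s) e p)
    ((4 * n + 2) * (1 / ((p : ℝ) - 1) ^ 2 + (if e ∈ CL ρ σ σ' p then 1 / ((p : ℝ) - 1) else 0)))
    (by positivity) (fun s hs =>
      ws_dL (n := n) ρ (lc σ σ') hp s (CL ρ σ σ' p) (card_CL hn ρ σ σ' p) e)
  have h4 : ws p (∅ : Finset (T ⊕ T)) *
      dL (CL ρ σ σ' p) (Hc ρ (lc σ σ') p ∅) e p = 0 := by
    have : Hc ρ (lc σ σ') p ∅ = fun _ => 1 := funext (fun x => Hc_empty ρ _ p x)
    rw [this, dL_one]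
    ring
  rw [h4] at h
  linarith

lemma sum_size {n : ℕ} (hn : Fintype.card T ≤ n) (ρ : ℕ → ℕ → ℕ) (σ σ' : T → Option ℕ) {p : ℕ}
    (hp : 2 ≤ p) :
    ∑ s : Finset (T ⊕ T), ws p s * sL (CL ρ σ σ' p) (Hc ρ (lc σ σ') p s) ≤
      4 ^ n * (4 * n + 2) := by
  have h := sum_bound (ι := T ⊕ T) (n := n) (by rw [Fintype.card_sum]; omega)
    (fun s => ws p s * sL (CL ρ σ σ' p) (Hc ρ (lc σ σ') p s))
    (4 * n + 2) (by positivity) (fun s hs => by
      have := ws_sL (n := n) ρ (lc σ σ') hp s (CL ρ σ σ' p) (card_CL hn ρ σ σ' p)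
      linarith)
  have h4 : ws p (∅ : Finset (T ⊕ T)) *
      sL (CL ρ σ σ' p) (Hc ρ (lc σ σ') p ∅) = 0 := by
    have : Hc ρ (lc σ σ') p ∅ = fun _ => 1 := funext (fun x => Hc_empty ρ _ p x)
    rw [this, sL_one]
    ring
  rw [h4] at h
  linarith

end Pair

lemma Pi1_pow (P : Finset ℕ) (hP : ∀ p ∈ P, p.Prime) (K : ℕ) (f : ℕ → ℝ) (hf : ∀ p ∈ P, 0 ≤ f p)
    (h : ∀ p ∈ P, f p ≤ 1 + K * (1 / ((p : ℝ) - 1))) : ∏ p ∈ P, f p ≤ Pi1 P ^ K := by
  unfold Pi1
  rw [← Finset.prod_pow]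
  apply Finset.prod_le_prod hf
  intro p hp
  have hp' : (2 : ℝ) ≤ p := by exact_mod_cast (hP p hp).two_le
  have h0 : (0 : ℝ) < (p : ℝ) - 1 := by linarith
  have h1 : (0 : ℝ) ≤ 1 / ((p : ℝ) - 1) := by positivity
  exact (h p hp).trans (one_add_mul_le_pow (by linarith) K)

theorem sumW : SumW := by
  classical
  intro n
  refine ⟨4 ^ n * (4 * n + 2), Nat.one_le_iff_ne_zero.2 (by positivity), ?_⟩
  intro T _ _ hn P ρ e S S' σ σ' hP hs hs'
  obtain ⟨-, -, hS, -⟩ := hs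
  obtain ⟨-, -, hS', -⟩ := hs'
  have hK : ((4 ^ n * (4 * n + 2) : ℕ) : ℝ) = 4 ^ n * (4 * n + 2) := by push_cast; ring
  have hp2 : ∀ p ∈ P, 2 ≤ p := fun p hp => (hP p hp).two_le
  have hsub1 : ∀ x ∈ Fintype.piFinset S ×ˢ Fintype.piFinset S', ∀ τ, x.1 τ ⊆ P := by
    intro x hx τ
    rw [Finset.mem_product, Fintype.mem_piFinset] at hx
    exact hS τ _ (hx.1 τ)
  have hsub2 : ∀ x ∈ Fintype.piFinset S ×ˢ Fintype.piFinset S', ∀ τ, x.2 τ ⊆ P := by
    intro x hx τ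
    rw [Finset.mem_product, Fintype.mem_piFinset, Fintype.mem_piFinset] at hx
    exact hS' τ _ (hx.2 τ)
  have hinj := cc_inj P S S' hS hS'
  have hHe : ∀ p, Hc ρ (lc σ σ') p ∅ = fun _ => 1 := fun p => funext (fun x => Hc_empty ρ _ p x)
  refine ⟨?_, ?_, ?_⟩
  · -- (i)
    rw [← Finset.sum_product' (f := fun R R' => (∏ τ, wt (R τ)) * (∏ τ, wt (R' τ)) *
      ∏ p ∈ QQ R R', (1 + aL (CL ρ σ σ' p) (hh ρ σ σ' R R' p) p))]
    have e1 : ∀ x ∈ Fintype.piFinset S ×ˢ Fintype.piFinset S',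
        (∏ τ, wt (x.1 τ)) * (∏ τ, wt (x.2 τ)) *
          ∏ p ∈ QQ x.1 x.2, (1 + aL (CL ρ σ σ' p) (hh ρ σ σ' x.1 x.2 p) p) =
        ∏ p : P, (ws p.1 (cc x p.1) *
          (1 + aL (CL ρ σ σ' p.1) (Hc ρ (lc σ σ') p.1 (cc x p.1)) p.1)) := by
      intro x hx
      rw [wt_eq P x (hsub1 x hx) (hsub2 x hx)]
      rw [Finset.prod_coe_sort P (fun p => ws p (cc x p) *
          (1 + aL (CL ρ σ σ' p) (Hc ρ (lc σ σ') p (cc x p)) p)), Finset.prod_mul_distrib]
      congr 1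
      rw [← prod_QQ P x (hsub1 x hx) (hsub2 x hx)
        (fun p s => 1 + aL (CL ρ σ σ' p) (Hc ρ (lc σ σ') p s) p) (fun p => by
          rw [hHe, aL_one, add_zero])]
      apply Finset.prod_congr rfl
      intro p _
      rw [hh_eq]
    rw [Finset.sum_congr rfl e1]
    have h1 := inj_sum P (Fintype.piFinset S ×ˢ Fintype.piFinset S') cc hinj
      (fun y => ∏ p : P, (ws p.1 (y p) *
          (1 + aL (CL ρ σ σ' p.1) (Hc ρ (lc σ σ') p.1 (y p)) p.1))) (fun y =>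
        Finset.prod_nonneg (fun p _ => mul_nonneg (ws_nonneg (hp2 p.1 p.2) _) (by
          have := aL_nonneg (CL ρ σ σ' p.1) (Hc ρ (lc σ σ') p.1 (y p)) (hp2 p.1 p.2)
          linarith)))
    refine h1.trans ?_
    rw [sum_prod_eq P (fun p s => ws p s * (1 + aL (CL ρ σ σ' p) (Hc ρ (lc σ σ') p s) p))]
    apply Pi1_pow P hP
    · intro p hp
      have := one_le_main ρ σ σ' (hp2 p hp)
      linarith
    · intro p hp
      rw [hK]
      exact sum_main hn ρ σ σ' (hp2 p hp)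
  · -- (ii)
    rw [← Finset.sum_product' (f := fun R R' => (∏ τ, wt (R τ)) * (∏ τ, wt (R' τ)) *
      (∏ p ∈ QQ R R', (1 + aL (CL ρ σ σ' p) (hh ρ σ σ' R R' p) p +
          dL (CL ρ σ σ' p) (hh ρ σ σ' R R' p) (e p) p) -
        ∏ p ∈ QQ R R', (1 + aL (CL ρ σ σ' p) (hh ρ σ σ' R R' p) p)))]
    have e1 : ∀ x ∈ Fintype.piFinset S ×ˢ Fintype.piFinset S',
        (∏ τ, wt (x.1 τ)) * (∏ τ, wt (x.2 τ)) *
          (∏ p ∈ QQ x.1 x.2, (1 + aL (CL ρ σ σ' p) (hh ρ σ σ' x.1 x.2 p) p +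
            dL (CL ρ σ σ' p) (hh ρ σ σ' x.1 x.2 p) (e p) p) -
          ∏ p ∈ QQ x.1 x.2, (1 + aL (CL ρ σ σ' p) (hh ρ σ σ' x.1 x.2 p) p)) =
        ∏ p : P, (ws p.1 (cc x p.1) *
          (1 + aL (CL ρ σ σ' p.1) (Hc ρ (lc σ σ') p.1 (cc x p.1)) p.1) +
          ws p.1 (cc x p.1) * dL (CL ρ σ σ' p.1) (Hc ρ (lc σ σ') p.1 (cc x p.1)) (e p.1) p.1) -
        ∏ p : P, (ws p.1 (cc x p.1) *
          (1 + aL (CL ρ σ σ' p.1) (Hc ρ (lc σ σ') p.1 (cc x p.1)) p.1)) := by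
      intro x hx
      rw [wt_eq P x (hsub1 x hx) (hsub2 x hx)]
      rw [Finset.prod_coe_sort P (fun p => ws p (cc x p) *
          (1 + aL (CL ρ σ σ' p) (Hc ρ (lc σ σ') p (cc x p)) p)),
        Finset.prod_coe_sort P (fun p => ws p (cc x p) *
          (1 + aL (CL ρ σ σ' p) (Hc ρ (lc σ σ') p (cc x p)) p) +
          ws p (cc x p) * dL (CL ρ σ σ' p) (Hc ρ (lc σ σ') p (cc x p)) (e p) p)]
      have e2 : ∏ p ∈ P, (ws p (cc x p) * (1 + aL (CL ρ σ σ' p) (Hc ρ (lc σ σ') p (cc x p)) p) +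
          ws p (cc x p) * dL (CL ρ σ σ' p) (Hc ρ (lc σ σ') p (cc x p)) (e p) p) =
          (∏ p ∈ P, ws p (cc x p)) * ∏ p ∈ P, (1 + aL (CL ρ σ σ' p) (Hc ρ (lc σ σ') p (cc x p)) p +
            dL (CL ρ σ σ' p) (Hc ρ (lc σ σ') p (cc x p)) (e p) p) := by
        rw [← Finset.prod_mul_distrib]
        apply Finset.prod_congr rfl
        intro p _
        ring
      rw [e2, Finset.prod_mul_distrib (f := fun p => ws p (cc x p)), ← mul_sub]
      congr 2
      · rw [← prod_QQ P x (hsub1 x hx) (hsub2 x hx)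
          (fun p s => 1 + aL (CL ρ σ σ' p) (Hc ρ (lc σ σ') p s) p +
            dL (CL ρ σ σ' p) (Hc ρ (lc σ σ') p s) (e p) p) (fun p => by
            rw [hHe, aL_one, dL_one, add_zero, add_zero])]
        apply Finset.prod_congr rfl
        intro p _
        rw [hh_eq]
      · rw [← prod_QQ P x (hsub1 x hx) (hsub2 x hx)
          (fun p s => 1 + aL (CL ρ σ σ' p) (Hc ρ (lc σ σ') p s) p) (fun p => by
            rw [hHe, aL_one, add_zero])]
        apply Finset.prod_congr rfl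
        intro p _
        rw [hh_eq]
    rw [Finset.sum_congr rfl e1]
    have h1 := inj_sum P (Fintype.piFinset S ×ˢ Fintype.piFinset S') cc hinj
      (fun y => ∏ p : P, (ws p.1 (y p) *
          (1 + aL (CL ρ σ σ' p.1) (Hc ρ (lc σ σ') p.1 (y p)) p.1) +
          ws p.1 (y p) * dL (CL ρ σ σ' p.1) (Hc ρ (lc σ σ') p.1 (y p)) (e p.1) p.1) -
        ∏ p : P, (ws p.1 (y p) *
          (1 + aL (CL ρ σ σ' p.1) (Hc ρ (lc σ σ') p.1 (y p)) p.1))) (fun y => by
        rw [sub_nonneg]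
        apply Finset.prod_le_prod
        · intro p _
          exact mul_nonneg (ws_nonneg (hp2 p.1 p.2) _) (by
            have := aL_nonneg (CL ρ σ σ' p.1) (Hc ρ (lc σ σ') p.1 (y p)) (hp2 p.1 p.2)
            linarith)
        · intro p _
          have := mul_nonneg (ws_nonneg (hp2 p.1 p.2) (y p))
            (dL_nonneg (CL ρ σ σ' p.1) (Hc ρ (lc σ σ') p.1 (y p)) (e p.1) (hp2 p.1 p.2))
          linarith)
    refine h1.trans ?_
    rw [Finset.sum_sub_distrib, sum_prod_eq P (fun p s => ws p s *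
        (1 + aL (CL ρ σ σ' p) (Hc ρ (lc σ σ') p s) p)),
      sum_prod_eq P (fun p s => ws p s * (1 + aL (CL ρ σ σ' p) (Hc ρ (lc σ σ') p s) p) +
        ws p s * dL (CL ρ σ σ' p) (Hc ρ (lc σ σ') p s) (e p) p)]
    have e3 : ∏ p ∈ P, ∑ s : Finset (T ⊕ T),
        (ws p s * (1 + aL (CL ρ σ σ' p) (Hc ρ (lc σ σ') p s) p) +
        ws p s * dL (CL ρ σ σ' p) (Hc ρ (lc σ σ') p s) (e p) p) =
      ∏ p ∈ P, (∑ s : Finset (T ⊕ T), ws p s * (1 + aL (CL ρ σ σ' p) (Hc ρ (lc σ σ') p s) p) +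
        ∑ s : Finset (T ⊕ T), ws p s * dL (CL ρ σ σ' p) (Hc ρ (lc σ σ') p s) (e p) p) := by
      apply Finset.prod_congr rfl
      intro p _
      rw [Finset.sum_add_distrib]
    rw [e3]
    have hO0 : ∀ p ∈ P, 0 ≤ ∑ s : Finset (T ⊕ T),
        ws p s * dL (CL ρ σ σ' p) (Hc ρ (lc σ σ') p s) (e p) p := fun p hp =>
      Finset.sum_nonneg (fun s _ => mul_nonneg (ws_nonneg (hp2 p hp) s)
        (dL_nonneg _ _ _ (hp2 p hp)))
    refine (exp_prod P _ _ (fun p hp => one_le_main ρ σ σ' (hp2 p hp)) hO0).trans ?_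
    have hO : ∑ p ∈ P, ∑ s : Finset (T ⊕ T),
        ws p s * dL (CL ρ σ σ' p) (Hc ρ (lc σ σ') p s) (e p) p ≤
        ((4 ^ n * (4 * n + 2) : ℕ) : ℝ) * dl e ρ P (pos σ ∪ pos σ') := by
      calc ∑ p ∈ P, ∑ s : Finset (T ⊕ T),
          ws p s * dL (CL ρ σ σ' p) (Hc ρ (lc σ σ') p s) (e p) p
          ≤ ∑ p ∈ P, (4 ^ n * (4 * n + 2)) *
            (1 / ((p : ℝ) - 1) ^ 2 + (if e p ∈ CL ρ σ σ' p then 1 / ((p : ℝ) - 1) else 0)) :=
          Finset.sum_le_sum (fun p hp => sum_dev hn ρ σ σ' (e p) (hp2 p hp))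
        _ = (4 ^ n * (4 * n + 2)) * ∑ p ∈ P,
            (1 / ((p : ℝ) - 1) ^ 2 + (if e p ∈ CL ρ σ σ' p then 1 / ((p : ℝ) - 1) else 0)) := by
            rw [Finset.mul_sum]
        _ ≤ (4 ^ n * (4 * n + 2)) * dl e ρ P (pos σ ∪ pos σ') := by
            have := dl_eq e ρ P σ σ' hP
            gcongr
        _ = _ := by rw [hK]
    have hexp := Real.exp_le_exp.2 hO
    have hexp0 := Real.one_le_exp (Finset.sum_nonneg hO0)
    have hPi : ∏ p ∈ P, ∑ s : Finset (T ⊕ T),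
        ws p s * (1 + aL (CL ρ σ σ' p) (Hc ρ (lc σ σ') p s) p) ≤
        Pi1 P ^ (4 ^ n * (4 * n + 2)) := by
      apply Pi1_pow P hP
      · intro p hp
        have := one_le_main ρ σ σ' (hp2 p hp)
        linarith
      · intro p hp
        rw [hK]
        exact sum_main hn ρ σ σ' (hp2 p hp)
    have hPi0 : 0 ≤ ∏ p ∈ P, ∑ s : Finset (T ⊕ T),
        ws p s * (1 + aL (CL ρ σ σ' p) (Hc ρ (lc σ σ') p s) p) := by
      apply Finset.prod_nonneg
      intro p hp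
      have := one_le_main ρ σ σ' (hp2 p hp)
      linarith
    apply mul_le_mul hPi (by linarith) (by linarith) (le_trans hPi0 hPi)
  · -- (iii)
    intro F D2 hF hD
    rw [← Finset.sum_product' (f := fun R R' => (∏ τ, wt (R τ)) * (∏ τ, wt (R' τ)) *
        ∑ T2 ∈ (QQ R R').powerset, (∏ p ∈ T2, sL (CL ρ σ σ' p) (hh ρ σ σ' R R' p)) * F T2)]
    -- term bound
    have e1 : ∀ x ∈ Fintype.piFinset S ×ˢ Fintype.piFinset S',
        (∏ τ, wt (x.1 τ)) * (∏ τ, wt (x.2 τ)) *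
        ∑ T2 ∈ (QQ x.1 x.2).powerset,
          (∏ p ∈ T2, sL (CL ρ σ σ' p) (hh ρ σ σ' x.1 x.2 p)) * F T2 ≤
        ∑ T2 ∈ P.powerset.filter (fun T : Finset ℕ => ∏ p ∈ T, p ≤ D2),
          F T2 * ∏ p : P, (ws p.1 (cc x p.1) *
            (if p.1 ∈ T2 then sL (CL ρ σ σ' p.1) (Hc ρ (lc σ σ') p.1 (cc x p.1)) else 1)) := by
      intro x hx
      have hsubQ : (QQ x.1 x.2).powerset ⊆
          P.powerset.filter (fun T : Finset ℕ => ∏ p ∈ T, p ≤ D2) := by
        intro T2 hT2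
        rw [Finset.mem_powerset] at hT2
        rw [Finset.mem_filter, Finset.mem_powerset]
        refine ⟨hT2.trans (QQ_sub P x (hsub1 x hx) (hsub2 x hx)), ?_⟩
        have hxD := hD x.1 (Finset.mem_product.1 hx).1 x.2 (Finset.mem_product.1 hx).2
        refine le_trans ?_ hxD
        have hpos1 : ∀ p ∈ P, 1 ≤ p := fun p hp => (hP p hp).one_le
        have hdvd : ∏ p ∈ T2, p ∣ (∏ τ, ∏ p ∈ x.1 τ, p) * (∏ τ, ∏ p ∈ x.2 τ, p) := by
          apply Finset.prod_primes_dvd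
          · intro p hp
            exact (hP p (QQ_sub P x (hsub1 x hx) (hsub2 x hx) (hT2 hp))).prime
          · intro p hp
            have hpQ := hT2 hp
            unfold QQ at hpQ
            rw [Finset.mem_union, Finset.mem_biUnion, Finset.mem_biUnion] at hpQ
            rcases hpQ with ⟨τ, _, h⟩ | ⟨τ, _, h⟩
            · apply Dvd.dvd.mul_right
              exact (Finset.dvd_prod_of_mem (fun q => q) h).trans
                (Finset.dvd_prod_of_mem (fun τ => ∏ p ∈ x.1 τ, p) (Finset.mem_univ τ))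
            · apply Dvd.dvd.mul_left
              exact (Finset.dvd_prod_of_mem (fun q => q) h).trans
                (Finset.dvd_prod_of_mem (fun τ => ∏ p ∈ x.2 τ, p) (Finset.mem_univ τ))
        apply Nat.le_of_dvd _ hdvd
        apply Nat.mul_pos
        · exact Finset.prod_pos (fun τ _ => Finset.prod_pos (fun p hp =>
            hpos1 p (hsub1 x hx τ hp)))
        · exact Finset.prod_pos (fun τ _ => Finset.prod_pos (fun p hp =>
            hpos1 p (hsub2 x hx τ hp)))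
      rw [wt_eq P x (hsub1 x hx) (hsub2 x hx), Finset.mul_sum]
      have hterm0 : ∀ T2, 0 ≤ F T2 * ∏ p : P, (ws p.1 (cc x p.1) *
            (if p.1 ∈ T2 then sL (CL ρ σ σ' p.1) (Hc ρ (lc σ σ') p.1 (cc x p.1)) else 1)) := by
        intro T2
        apply mul_nonneg (hF T2)
        apply Finset.prod_nonneg
        intro p _
        apply mul_nonneg (ws_nonneg (hp2 p.1 p.2) _)
        split_ifs
        · exact sL_nonneg _ _
        · norm_num
      calc _ = ∑ T2 ∈ (QQ x.1 x.2).powerset, F T2 * ∏ p : P, (ws p.1 (cc x p.1) *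
            (if p.1 ∈ T2 then sL (CL ρ σ σ' p.1) (Hc ρ (lc σ σ') p.1 (cc x p.1)) else 1)) := by
            apply Finset.sum_congr rfl
            intro T2 hT2
            rw [Finset.mem_powerset] at hT2
            rw [Finset.prod_coe_sort P (fun p => ws p (cc x p) *
              (if p ∈ T2 then sL (CL ρ σ σ' p) (Hc ρ (lc σ σ') p (cc x p)) else 1)),
              Finset.prod_mul_distrib]
            have e4 : ∏ p ∈ P, (if p ∈ T2 then sL (CL ρ σ σ' p) (Hc ρ (lc σ σ') p (cc x p)) else 1) =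
                ∏ p ∈ T2, sL (CL ρ σ σ' p) (hh ρ σ σ' x.1 x.2 p) := by
              rw [← Finset.prod_filter]
              have e5 : P.filter (fun p => p ∈ T2) = T2 := by
                ext p
                rw [Finset.mem_filter]
                exact ⟨fun h => h.2, fun h =>
                  ⟨QQ_sub P x (hsub1 x hx) (hsub2 x hx) (hT2 h), h⟩⟩
              rw [e5]
              apply Finset.prod_congr rfl
              intro p _
              rw [hh_eq]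
            rw [e4]
            ring
        _ ≤ _ := Finset.sum_le_sum_of_subset_of_nonneg hsubQ (fun T2 _ _ => hterm0 T2)
    refine (Finset.sum_le_sum e1).trans ?_
    rw [Finset.sum_comm, Finset.mul_sum]
    apply Finset.sum_le_sum
    intro T2 hT2
    rw [Finset.mem_filter, Finset.mem_powerset] at hT2
    rw [← Finset.mul_sum]
    have h1 := inj_sum P (Fintype.piFinset S ×ˢ Fintype.piFinset S') cc hinj
      (fun y => ∏ p : P, (ws p.1 (y p) *
            (if p.1 ∈ T2 then sL (CL ρ σ σ' p.1) (Hc ρ (lc σ σ') p.1 (y p)) else 1))) (fun y => by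
        apply Finset.prod_nonneg
        intro p _
        apply mul_nonneg (ws_nonneg (hp2 p.1 p.2) _)
        split_ifs
        · exact sL_nonneg _ _
        · norm_num)
    have h2 : ∑ x ∈ Fintype.piFinset S ×ˢ Fintype.piFinset S', ∏ p : P, (ws p.1 (cc x p.1) *
            (if p.1 ∈ T2 then sL (CL ρ σ σ' p.1) (Hc ρ (lc σ σ') p.1 (cc x p.1)) else 1)) ≤
        Pi1 P ^ (4 ^ n * (4 * n + 2)) * ((4 ^ n * (4 * n + 2) : ℕ) : ℝ) ^ T2.card := by
      refine h1.trans ?_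
      rw [sum_prod_eq P (fun p s => ws p s *
            (if p ∈ T2 then sL (CL ρ σ σ' p) (Hc ρ (lc σ σ') p s) else 1))]
      have hloc : ∀ p ∈ P, ∑ s : Finset (T ⊕ T), ws p s *
            (if p ∈ T2 then sL (CL ρ σ σ' p) (Hc ρ (lc σ σ') p s) else 1) ≤
          (1 + ((4 ^ n * (4 * n + 2) : ℕ) : ℝ) * (1 / ((p : ℝ) - 1))) *
            (if p ∈ T2 then ((4 ^ n * (4 * n + 2) : ℕ) : ℝ) else 1) := by
        intro p hp
        have hp' : (2 : ℝ) ≤ p := by exact_mod_cast hp2 p hp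
        have h0 : (0 : ℝ) < (p : ℝ) - 1 := by linarith
        rw [hK]
        split_ifs
        · have h3 := sum_size hn ρ σ σ' (hp2 p hp)
          have h4 : (0 : ℝ) ≤ 4 ^ n * (4 * n + 2) * (1 / ((p : ℝ) - 1)) := by positivity
          have h5 : (0 : ℝ) ≤ 4 ^ n * (4 * n + 2) := by positivity
          nlinarith
        · have h3 := sum_ws (T := T) hn (hp2 p hp)
          rw [mul_one]
          simp only [mul_one]
          refine h3.trans ?_
          have h6 : (4 : ℝ) ^ n * (1 / ((p : ℝ) - 1)) ≤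
              4 ^ n * (4 * n + 2) * (1 / ((p : ℝ) - 1)) := by
            have h7 : (1 : ℝ) ≤ 4 * n + 2 := by
              have : (0 : ℝ) ≤ n := by positivity
              linarith
            have h8 : (0 : ℝ) ≤ 4 ^ n := by positivity
            have h9 : (4 : ℝ) ^ n ≤ 4 ^ n * (4 * n + 2) := by nlinarith
            gcongr
          linarith
      have hnn : ∀ p ∈ P, 0 ≤ ∑ s : Finset (T ⊕ T), ws p s *
            (if p ∈ T2 then sL (CL ρ σ σ' p) (Hc ρ (lc σ σ') p s) else 1) := by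
        intro p hp
        apply Finset.sum_nonneg
        intro s _
        apply mul_nonneg (ws_nonneg (hp2 p hp) s)
        split_ifs
        · exact sL_nonneg _ _
        · norm_num
      refine (Finset.prod_le_prod hnn hloc).trans ?_
      rw [Finset.prod_mul_distrib]
      have e6 : ∏ p ∈ P, (if p ∈ T2 then ((4 ^ n * (4 * n + 2) : ℕ) : ℝ) else 1) =
          ((4 ^ n * (4 * n + 2) : ℕ) : ℝ) ^ T2.card := by
        rw [← Finset.prod_filter]
        have e5 : P.filter (fun p => p ∈ T2) = T2 := by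
          ext p
          rw [Finset.mem_filter]
          exact ⟨fun h => h.2, fun h => ⟨hT2.1 h, h⟩⟩
        rw [e5, Finset.prod_const]
      rw [e6]
      have h10 : ∏ p ∈ P, (1 + ((4 ^ n * (4 * n + 2) : ℕ) : ℝ) * (1 / ((p : ℝ) - 1))) ≤
          Pi1 P ^ (4 ^ n * (4 * n + 2)) := by
        apply Pi1_pow P hP
        · intro p hp
          have hp' : (2 : ℝ) ≤ p := by exact_mod_cast hp2 p hp
          have h0 : (0 : ℝ) < (p : ℝ) - 1 := by linarith
          positivity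
        · intro p hp
          exact le_rfl
      gcongr
    calc F T2 * _ ≤ F T2 * (Pi1 P ^ (4 ^ n * (4 * n + 2)) *
          ((4 ^ n * (4 * n + 2) : ℕ) : ℝ) ^ T2.card) :=
          mul_le_mul_of_nonneg_left h2 (hF T2)
      _ = _ := by ring

end Pool.Agent.H911R2.EN
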